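import Mathlib

/-!
MP_39b545_nt: the parity of the product of the terms of a Cunningham chain. Formal part: a function
`F w x` with `F (c w) (c x) = g c * F w x` (to be used for `F w x = λ (w V + x)`).
-/

set_option autoImplicit false

namespace Pool.Agent.Lib.MP_39b545_nt.Parity

open Finset

/-- the step of the recurrence -/
def step (d : ℕ) (J : Finset ℕ) (κ : ℤˣ) (v : Fin d → ℤˣ) : Fin d → ℤˣ := fun i =>
  if h : (i : ℕ) + 1 < d then v ⟨i + 1, h⟩ else
    κ * ∏ j ∈ J.erase d, (if h : j < d then v ⟨j, h⟩ else 1)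

theorem step_inj (d : ℕ) (hd : 0 < d) (J : Finset ℕ) (h0 : 0 ∈ J) (κ : ℤˣ) :
    Function.Injective (step d J κ) := by
  intro v v' hv
  have h1 : ∀ i : ℕ, ∀ h : i + 1 < d, v ⟨i + 1, h⟩ = v' ⟨i + 1, h⟩ := by
    intro i h
    have := congrFun hv ⟨i, by omega⟩
    simpa [step, h] using this
  have h2 : v ⟨0, hd⟩ = v' ⟨0, hd⟩ := by
    have h3 := congrFun hv ⟨d - 1, by omega⟩
    have h4 : ¬ (d - 1 + 1 < d) := by omega
    simp only [step, h4, dite_false] at h3
    have h5 := mul_left_cancel h3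
    have h6 : (0 : ℕ) ∈ J.erase d := by
      rw [mem_erase]; exact ⟨by omega, h0⟩
    rw [← Finset.mul_prod_erase _ _ h6, ← Finset.mul_prod_erase (J.erase d) (fun j =>
      (if h : j < d then v' ⟨j, h⟩ else 1)) h6] at h5
    have h7 : ∏ x ∈ (J.erase d).erase 0, (if h : x < d then v ⟨x, h⟩ else 1) =
        ∏ x ∈ (J.erase d).erase 0, (if h : x < d then v' ⟨x, h⟩ else 1) := by
      apply Finset.prod_congr rfl
      intro x hx
      have hx0 : x ≠ 0 := (mem_erase.1 hx).1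
      by_cases hxd : x < d
      · obtain ⟨y, rfl⟩ : ∃ y, x = y + 1 := ⟨x - 1, by omega⟩
        simp only [hxd, dite_true]
        exact h1 y hxd
      · simp only [hxd, dite_false]
    rw [h7] at h5
    have h8 := mul_right_cancel h5
    simpa [hd] using h8
  funext i
  obtain ⟨i, hi⟩ := i
  rcases Nat.eq_zero_or_pos i with rfl | hpos
  · exact h2
  · obtain ⟨y, rfl⟩ : ∃ y, i = y + 1 := ⟨i - 1, by omega⟩
    exact h1 y hi

/-- solutions of the recurrence are periodic with a period depending on `J` only -/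
theorem periodic (J : Finset ℕ) (h0 : 0 ∈ J) (d : ℕ) (hd : 0 < d) (hdJ : d ∈ J)
    (hmax : ∀ j ∈ J, j ≤ d) (κ : ℤˣ) :
    ∃ n : ℕ, 2 ≤ n ∧ ∀ u : ℕ → ℤˣ, (∀ t ≤ n, ∏ j ∈ J, u (t + j) = κ) → u n = u 0 := by
  classical
  set Φ : Equiv.Perm (Fin d → ℤˣ) :=
    Equiv.ofBijective (step d J κ) (Finite.injective_iff_bijective.1 (step_inj d hd J h0 κ)) with hΦ
  have hΦa : ∀ v, Φ v = step d J κ v := by intro v; rw [hΦ]; rfl
  refine ⟨2 * Fintype.card (Equiv.Perm (Fin d → ℤˣ)), ?_, ?_⟩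
  · have : 0 < Fintype.card (Equiv.Perm (Fin d → ℤˣ)) := Fintype.card_pos
    omega
  · intro u hu
    set n := 2 * Fintype.card (Equiv.Perm (Fin d → ℤˣ)) with hn
    have hstate : ∀ t ≤ n, (Φ ^ t) (fun i : Fin d => u i) = fun i : Fin d => u (t + i) := by
      intro t
      induction t with
      | zero => intro _; simp
      | succ t ih =>
        intro ht
        rw [pow_succ', Equiv.Perm.mul_apply, ih (by omega), hΦa]
        funext i
        unfold step
        by_cases hi : (i : ℕ) + 1 < d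
        · rw [dif_pos hi]
          have e : t + ((i : ℕ) + 1) = t + 1 + (i : ℕ) := by omega
          exact congrArg u e
        · rw [dif_neg hi]
          have hid : (i : ℕ) + 1 = d := by have := i.2; omega
          have h1 := hu t (by omega)
          rw [← Finset.mul_prod_erase _ _ hdJ] at h1
          have h2 : ∏ j ∈ J.erase d, (if h : j < d then (fun i : Fin d => u (t + i)) ⟨j, h⟩
              else 1) = ∏ j ∈ J.erase d, u (t + j) := by
            apply Finset.prod_congr rfl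
            intro j hj
            rw [mem_erase] at hj
            have : j < d := lt_of_le_of_ne (hmax j hj.2) hj.1
            rw [dif_pos this]
          rw [h2, ← h1]
          have h3 : t + 1 + (i : ℕ) = t + d := by omega
          rw [h3, mul_assoc, Int.units_mul_self, mul_one]
    have h1 : Φ ^ n = 1 := by
      rw [hn, mul_comm, pow_mul, pow_card_eq_one, one_pow]
    have h2 := hstate n le_rfl
    rw [h1] at h2
    have h3 := congrFun h2 ⟨0, hd⟩
    simpa using h3.symm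

/-- the homogeneity relation -/
structure Rel (g : ℕ → ℤˣ) (F : ℕ → ℕ → ℤˣ) : Prop where
  scal : ∀ c w x : ℕ, 0 < c → 0 < w → F (c * w) (c * x) = g c * F w x
  mul : ∀ a b : ℕ, 0 < a → 0 < b → g (a * b) = g a * g b

/-- all products have the same value -/
def H (J : Finset ℕ) (κ : ℤˣ) (W X : ℕ) (F : ℕ → ℕ → ℤˣ) : Prop :=
  ∀ w x : ℕ, 0 < w → w ≤ W → x ≤ X → ∏ j ∈ J, F (2 ^ j * w) (2 ^ j * x + 1) = κ

theorem H.mono {J : Finset ℕ} {κ : ℤˣ} {W X W' X' : ℕ} {F : ℕ → ℕ → ℤˣ} (h : H J κ W X F)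
    (hW : W' ≤ W) (hX : X' ≤ X) : H J κ W' X' F :=
  fun w x h1 h2 h3 => h w x h1 (h2.trans hW) (h3.trans hX)

/-- multiplication by `M` changes the value by a constant -/
def S (J : Finset ℕ) (κ : ℤˣ) (M : ℕ) : Prop := ∀ A B : ℕ, ∃ W X : ℕ,
  ∀ (g : ℕ → ℤˣ) (F : ℕ → ℕ → ℤˣ), Rel g F → H J κ W X F →
    ∃ σ : ℤˣ, ∀ w x : ℕ, 0 < w → w ≤ A → x ≤ B → F (M * w) (M * x + 1) = σ * F w (x + 1)

/-- multiplication by `M` changes the value by `g M` -/
def S' (J : Finset ℕ) (κ : ℤˣ) (M : ℕ) : Prop := ∀ A B : ℕ, ∃ W X : ℕ,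
  ∀ (g : ℕ → ℤˣ) (F : ℕ → ℕ → ℤˣ), Rel g F → H J κ W X F →
    ∀ w x : ℕ, 0 < w → w ≤ A → x ≤ B → F (M * w) (M * x + 1) = g M * F w (x + 1)

theorem S'.toS {J : Finset ℕ} {κ : ℤˣ} {M : ℕ} (h : S' J κ M) : S J κ M := by
  intro A B
  obtain ⟨W, X, hWX⟩ := h A B
  exact ⟨W, X, fun g F hR hH => ⟨g M, hWX g F hR hH⟩⟩

theorem descent {J : Finset ℕ} {κ : ℤˣ} (m : ℕ) (hm : 2 ≤ m) (h : S J κ (m + 1)) :
    S' J κ m := by
  intro A B
  obtain ⟨W, X, hWX⟩ := h (m ^ 2 * A) (m ^ 2 * B + (m - 1))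
  refine ⟨W, X, fun g F hR hH w x hw hwA hxB => ?_⟩
  obtain ⟨σ, hσ⟩ := hWX g F hR hH
  have hm2 : 1 ≤ m ^ 2 := Nat.one_le_pow _ _ (by omega)
  have h1 := hσ w x hw (hwA.trans (Nat.le_mul_of_pos_left _ (by omega)))
    (by
      have : B ≤ m ^ 2 * B := Nat.le_mul_of_pos_left _ (by omega)
      omega)
  have h2 := hσ (m ^ 2 * w) (m ^ 2 * x + (m - 1)) (by positivity)
    (Nat.mul_le_mul_left _ hwA) (by
      have := Nat.mul_le_mul_left (m ^ 2) hxB
      omega)
  obtain ⟨r, rfl⟩ : ∃ r, m = r + 1 := ⟨m - 1, by omega⟩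
  have e1 : (r + 1 + 1) * ((r + 1) ^ 2 * w) = (r + 1) ^ 2 * ((r + 1 + 1) * w) := by ring
  have e2 : (r + 1 + 1) * ((r + 1) ^ 2 * x + (r + 1 - 1)) + 1 =
      (r + 1) ^ 2 * ((r + 1 + 1) * x + 1) := by
    rw [Nat.add_sub_cancel]; ring
  have e3 : (r + 1) ^ 2 * w = (r + 1) * ((r + 1) * w) := by ring
  have e4 : (r + 1) ^ 2 * x + (r + 1 - 1) + 1 = (r + 1) * ((r + 1) * x + 1) := by
    rw [Nat.add_sub_cancel]; ring
  rw [e1, e2, hR.scal _ _ _ (by positivity) (by positivity)] at h2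
  rw [e4, e3, hR.scal _ _ _ (by omega) (by positivity)] at h2
  have e5 : g ((r + 1) ^ 2) = 1 := by
    rw [pow_two, hR.mul _ _ (by omega) (by omega), Int.units_mul_self]
  rw [e5, one_mul, h1] at h2
  have h3 := mul_left_cancel h2
  rw [h3, ← mul_assoc, Int.units_mul_self, one_mul]

theorem descent_all {J : Finset ℕ} {κ : ℤˣ} (M : ℕ) (hM : 3 ≤ M) (h : S J κ M) :
    S' J κ 2 := by
  induction M, hM using Nat.le_induction with
  | base => exact descent 2 le_rfl h
  | succ M hM ih => exact ih (descent M (by omega) h).toS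

theorem S_start (J : Finset ℕ) (h0 : 0 ∈ J) (d : ℕ) (hd : 0 < d) (hdJ : d ∈ J)
    (hmax : ∀ j ∈ J, j ≤ d) (κ : ℤˣ) : ∃ n : ℕ, 2 ≤ n ∧ S J κ (2 ^ n) := by
  obtain ⟨n, hn, hper⟩ := periodic J h0 d hd hdJ hmax κ
  refine ⟨n, hn, ?_⟩
  intro A B
  refine ⟨2 ^ n * A, 2 ^ n * B, fun g F hR hH => ⟨1, fun w x hw hwA hxB => ?_⟩⟩
  have h1 := hper (fun i => F (2 ^ i * w) (2 ^ i * x + 1)) (by
    intro t ht
    have h2 : 2 ^ t ≤ 2 ^ n := Nat.pow_le_pow_right (by norm_num) ht
    have h3 := hH (2 ^ t * w) (2 ^ t * x) (by positivity) (Nat.mul_le_mul h2 hwA)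
      (Nat.mul_le_mul h2 hxB)
    rw [← h3]
    apply Finset.prod_congr rfl
    intro j _
    have e1 : 2 ^ (t + j) * w = 2 ^ j * (2 ^ t * w) := by rw [pow_add]; ring
    have e2 : 2 ^ (t + j) * x + 1 = 2 ^ j * (2 ^ t * x) + 1 := by rw [pow_add]; ring
    rw [e1, e2])
  simp only [pow_zero, one_mul] at h1
  rw [one_mul]
  exact h1

/-- **Formal parity theorem.** -/
theorem formal (J : Finset ℕ) (h0 : 0 ∈ J) (hpar : Odd J.card ∨ Even (∑ j ∈ J, j)) :
    ∃ W X : ℕ, ∀ (g : ℕ → ℤˣ) (F : ℕ → ℕ → ℤˣ), Rel g F → g 2 = -1 →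
      ∃ w x : ℕ, 0 < w ∧ w ≤ W ∧ x ≤ X ∧
        ∏ j ∈ J, F (2 ^ j * w) (2 ^ j * x + 1) = (-1) ^ J.card := by
  classical
  set d := J.sup id with hd
  have hmax : ∀ j ∈ J, j ≤ d := fun j hj => Finset.le_sup (f := id) hj
  have hdJ : d ∈ J := by
    obtain ⟨j, hj, hjd⟩ := Finset.exists_mem_eq_sup J ⟨0, h0⟩ id
    rw [hd, hjd]; exact hj
  rcases Nat.eq_zero_or_pos d with hd0 | hdpos
  · -- `J = {0}`
    have hJ : J = {0} := by
      ext j
      rw [mem_singleton]
      constructor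
      · intro hj; have := hmax j hj; omega
      · rintro rfl; exact h0
    refine ⟨2, 1, fun g F hR hg => ?_⟩
    rw [hJ]
    simp only [prod_singleton, pow_zero, one_mul, card_singleton, pow_one]
    by_contra hcon
    push Not at hcon
    have h1 := hcon 1 0 (by norm_num) (by norm_num) (by norm_num)
    have h2 := hcon 2 1 (by norm_num) (by norm_num) (by norm_num)
    have h3 := hR.scal 2 1 1 (by norm_num) (by norm_num)
    simp only [zero_add] at h1
    have h4 : F 2 (1 + 1) = -F 1 1 := by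
      have h5 : F 2 (1 + 1) = F (2 * 1) (2 * 1) := rfl
      rw [h5, h3, hg]; simp
    rw [h4] at h2
    rcases Int.units_eq_one_or (F 1 1) with h | h
    · rw [h] at h2; exact h2 rfl
    · exact h1 h
  · obtain ⟨n, hn, hS⟩ := S_start J h0 d hdpos hdJ hmax (-(-1) ^ J.card)
    have hM : 3 ≤ 2 ^ n := by
      calc 3 ≤ 2 ^ 2 := by norm_num
        _ ≤ 2 ^ n := Nat.pow_le_pow_right (by norm_num) hn
    obtain ⟨W, X, hWX⟩ := descent_all _ hM hS (2 ^ (d + 1)) 0
    refine ⟨max W 2, X, fun g F hR hg => ?_⟩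
    by_contra hcon
    push Not at hcon
    have hH : H J (-(-1) ^ J.card) (max W 2) X F := by
      intro w x hw hwW hxX
      have h1 := hcon w x hw hwW hxX
      rcases Int.units_eq_one_or (∏ j ∈ J, F (2 ^ j * w) (2 ^ j * x + 1)) with h | h <;>
        rcases Int.units_eq_one_or ((-1 : ℤˣ) ^ J.card) with h' | h' <;>
        rw [h, h'] at h1 <;> rw [h, h'] <;> simp at h1 ⊢
    have hE := hWX g F hR (hH.mono (le_max_left _ _) le_rfl)
    have h2 : ∀ i ≤ d + 1, F (2 ^ i) 1 = (-1) ^ i * F 1 1 := by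
      intro i
      induction i with
      | zero => intro _; simp
      | succ i ih =>
        intro hi
        have h3 := hE (2 ^ i) 0 (by positivity) (Nat.pow_le_pow_right (by norm_num) (by omega))
          le_rfl
        rw [hg, mul_zero, zero_add, ih (by omega)] at h3
        rw [pow_succ, mul_comm (2 ^ i) 2, h3, pow_succ]
        simp
    have hprod : ∀ i : ℕ, i ≤ 1 → ∏ j ∈ J, F (2 ^ j * 2 ^ i) (2 ^ j * 0 + 1) =
        (-1) ^ (∑ j ∈ J, j) * ((-1) ^ i * F 1 1) ^ J.card := by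
      intro i hi
      rw [← Finset.prod_pow_eq_pow_sum, ← Finset.prod_const, ← Finset.prod_mul_distrib]
      apply Finset.prod_congr rfl
      intro j hj
      have := hmax j hj
      rw [← pow_add, mul_zero, zero_add, h2 (j + i) (by omega), pow_add, mul_assoc]
    have k1 := hH 1 0 (by norm_num) (by omega) (Nat.zero_le _)
    have k2 := hH 2 0 (by norm_num) (by omega) (Nat.zero_le _)
    have p1 := hprod 0 (by norm_num)
    have p2 := hprod 1 (by norm_num)
    rw [pow_zero] at p1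
    rw [pow_one] at p2
    rw [k1] at p1
    rw [k2] at p2
    rcases Nat.even_or_odd J.card with hc | hc
    · have hs : Even (∑ j ∈ J, j) := by
        rcases hpar with h | h
        · exact absurd h (Nat.not_odd_iff_even.2 hc)
        · exact h
      rw [hs.neg_one_pow, hc.neg_one_pow] at p1
      obtain ⟨r, hr⟩ := hc
      rw [hr, ← two_mul, pow_mul] at p1
      rcases Int.units_eq_one_or (F 1 1) with h | h <;> rw [h] at p1 <;> simp at p1
    · rw [hc.neg_one_pow] at p1 p2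
      rw [p1] at p2
      have h3 := mul_left_cancel p2
      obtain ⟨r, hr⟩ := hc
      rw [hr, pow_succ, pow_mul, pow_succ, pow_mul] at h3
      rcases Int.units_eq_one_or (F 1 1) with h | h <;> rw [h] at h3 <;> simp at h3

end Pool.Agent.Lib.MP_39b545_nt.Parity
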