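import Mathlib
import Pool.Agent.Lib.MP_39b545_nt.Half.Setup
import Pool.Agent.Lib.MP_81e58e_co.LRamsey

/-!
Two single residues in the sequence `2 ^ i * m + 1`: for all `K` and `m` some member `x` of a
finite family of linear forms has `Ω (x + 1) ≡ r` and `Ω (K x + 1) ≡ r + Ω K` modulo `m`.
-/

set_option autoImplicit false

namespace Pool.Agent.Lib.MP_39b545_nt.TwoRes19

open Finset
open ArithmeticFunction (cardFactors)
open Pool.Agent.Lib.MP_39b545_nt.Half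

/-- a sparse sequence -/
def S (K : ℕ) : ℕ → ℕ
  | 0 => 0
  | l + 1 => S K l + K * (S K l).factorial

theorem S_mono (K : ℕ) (hK : 0 < K) : StrictMono (S K) := by
  refine strictMono_nat_of_lt_succ fun l => ?_
  have h1 : 0 < K * (S K l).factorial := Nat.mul_pos hK (Nat.factorial_pos _)
  show S K l < S K l + K * (S K l).factorial
  omega

theorem S_dvd_fact (K : ℕ) (hK : 0 < K) {i j l : ℕ} (hij : i < j) (hjl : j ≤ l) :
    K * (S K j - S K i) ∣ K * (S K l).factorial := by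
  have h1 := S_mono K hK hij
  have h2 := (S_mono K hK).monotone hjl
  exact Nat.mul_dvd_mul_left K (Nat.dvd_factorial (by omega) (by omega))

theorem S_dvd (K : ℕ) (hK : 0 < K) {i j n : ℕ} (hij : i < j) (hjn : j ≤ n) :
    K * (S K j - S K i) ∣ S K n - S K j := by
  induction n, hjn using Nat.le_induction with
  | base => simp
  | succ n hn ih =>
    have h1 : S K (n + 1) = S K n + K * (S K n).factorial := rfl
    have h2 := (S_mono K hK).monotone hn
    have h3 : S K (n + 1) - S K j = (S K n - S K j) + K * (S K n).factorial := by omega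
    rw [h3]
    exact Nat.dvd_add ih (S_dvd_fact K hK hij hn)

/-- a set of numbers all of whose differences divide the smaller number, with all differences
having the same number of prime factors modulo `m` -/
theorem clique (K m : ℕ) [NeZero m] (hK : 0 < K) : ∃ r : ℕ → ℕ, ∃ Λ : ℕ, ∃ t0 : ZMod m, 0 < Λ ∧
    (∀ a ≤ m, 0 < r a ∧ (K - 1) * r a < Λ) ∧
    ∀ a b, a < b → b ≤ m → ∃ κ : ℕ, 0 < κ ∧ r a = r b + κ ∧ K * κ ∣ r b ∧ K * κ ∣ Λ ∧
      ((cardFactors κ : ℕ) : ZMod m) = t0 := by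
  have hm : 0 < m := Nat.pos_of_ne_zero (NeZero.ne m)
  obtain ⟨N, hN⟩ := CodegDens.ramsey (ZMod m) 2 (m + 1)
  obtain ⟨J, hJ, -, hJc⟩ := hN (fun s => ((cardFactors (S K (s 1) - S K (s 0)) : ℕ) : ZMod m)) (by
    intro s s' h
    rw [h 0 (by omega), h 1 (by omega)])
  obtain ⟨n, hn⟩ : ∃ n, n = J m + 1 := ⟨_, rfl⟩
  have hSm := S_mono K hK
  have hJn : ∀ a ≤ m, J a < n := by
    intro a ha
    have := hJ.monotone ha
    omega
  have hSn : ∀ a ≤ m, S K (J a) < S K n := fun a ha => hSm (hJn a ha)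
  refine ⟨fun a => S K n - S K (J a), K * (S K n).factorial * (K * S K n + 1),
    ((cardFactors (S K (J 1) - S K (J 0)) : ℕ) : ZMod m), ?_, ?_, ?_⟩
  · exact Nat.mul_pos (Nat.mul_pos hK (Nat.factorial_pos _)) (Nat.succ_pos _)
  · intro a ha
    have h1 := hSn a ha
    refine ⟨by show 0 < S K n - S K (J a); omega, ?_⟩
    show (K - 1) * (S K n - S K (J a)) < _
    have h2 : (K - 1) * (S K n - S K (J a)) ≤ K * S K n :=
      Nat.mul_le_mul (Nat.sub_le _ _) (Nat.sub_le _ _)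
    have h3 : 1 * (K * S K n + 1) ≤ K * (S K n).factorial * (K * S K n + 1) :=
      Nat.mul_le_mul_right _ (Nat.mul_pos hK (Nat.factorial_pos _))
    omega
  · intro a b hab hb
    have h1 := hSm (hJ hab)
    have h2 := hSn b hb
    have h3 := hSn a (by omega)
    refine ⟨S K (J b) - S K (J a), by omega, ?_, ?_, ?_, ?_⟩
    · show S K n - S K (J a) = S K n - S K (J b) + (S K (J b) - S K (J a))
      omega
    · exact S_dvd K hK (hJ hab) (hJn b hb).le
    · exact Dvd.dvd.mul_right (S_dvd_fact K hK (hJ hab) (hJn b hb).le) _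
    · have h4 := hJc (fun i => if i = 0 then a else b + (i - 1)) id (by
        intro i j hij
        have hj : j ≠ 0 := by omega
        simp only [if_neg hj]
        split_ifs <;> omega) (by
        intro i hi
        show (if i = 0 then a else b + (i - 1)) < m + 1
        split_ifs <;> omega) strictMono_id (by
        intro i hi
        show i < m + 1
        omega)
      simpa using h4

theorem cardFactors_mul' {a b : ℕ} (ha : 0 < a) (hb : 0 < b) :
    cardFactors (a * b) = cardFactors a + cardFactors b :=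
  ArithmeticFunction.cardFactors_mul ha.ne' hb.ne'

/-- The two residues. -/
theorem two_res (K m : ℕ) [NeZero m] (hK : 0 < K) (ρ : ZMod m) : ∃ W X : ℕ, ∀ V : ℕ, ∃ w x : ℕ,
    0 < w ∧ w ≤ W ∧ x ≤ X ∧ ((cardFactors (w * V + x + 1) : ℕ) : ZMod m) = ρ ∧
      ((cardFactors (K * (w * V + x) + 1) : ℕ) : ZMod m) = ρ + ((cardFactors K : ℕ) : ZMod m) := by
  classical
  have hm : 0 < m := Nat.pos_of_ne_zero (NeZero.ne m)
  have hm0 : (0 : ℝ) < m := by exact_mod_cast hm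
  obtain ⟨r, Λ, t0, hΛ, hr, hcl⟩ := clique K m hK
  obtain ⟨c, hc⟩ : ∃ c : ZMod m, c = ρ + ((cardFactors K : ℕ) : ZMod m) + t0 := ⟨_, rfl⟩
  obtain ⟨g, hg⟩ : ∃ g : ℕ → ZMod m → ℝ, g = fun _ x => 1 / (m : ℝ) - if x = c then 1 else 0 :=
    ⟨_, rfl⟩
  have hg0 : ∀ i < m + 1, ∑ x : ZMod m, g i x = 0 := by
    intro i _
    rw [hg]
    simp only [sum_sub_distrib, sum_const, card_univ, ZMod.card, nsmul_eq_mul, sum_ite_eq',
      mem_univ, if_true]
    field_simp
    ring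
  obtain ⟨δ, hδ, hgap⟩ := exists_delta (m + 1) m g
  obtain ⟨G, hG⟩ := exists_bound (m + 1) m g
  have hη : 0 < (δ / (2 * m)) ^ 2 := by positivity
  obtain ⟨P, hP, hR⟩ := exists_primes Λ hΛ
    ((m : ℝ) + ((m + 1 : ℕ) : ℝ) ^ 2 * m * G ^ 2 / (δ / (2 * m)) ^ 2)
  have hbig : ((m + 1 : ℕ) : ℝ) ^ 2 * m * G ^ 2 <
      (δ / (2 * m)) ^ 2 * (∑ p ∈ P, (1 / (p : ℝ)) - m) := by
    have h1 : ((m + 1 : ℕ) : ℝ) ^ 2 * m * G ^ 2 / (δ / (2 * m)) ^ 2 <
        ∑ p ∈ P, (1 / (p : ℝ)) - m := by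
      linarith
    rw [div_lt_iff₀ hη] at h1
    linarith
  have hβ : ∀ i < m + 1, 0 < Λ - (K - 1) * r i ∧ Λ - (K - 1) * r i ≤ Λ := by
    intro i hi
    have := (hr i (by omega)).2
    omega
  have hPα : ∀ p ∈ P, p.Prime ∧ ∀ i < m + 1, Λ ∣ p - 1 :=
    fun p hp => ⟨(hP p hp).1, fun _ _ => (hP p hp).2⟩
  have hL : ∀ p ∈ P, ∀ n : ℕ, 0 < n →
      ((cardFactors (p * n) : ℕ) : ZMod m) = ((cardFactors n : ℕ) : ZMod m) + 1 := by
    intro p hp n hn
    have hpp := (hP p hp).1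
    rw [ArithmeticFunction.cardFactors_mul hpp.ne_zero hn.ne',
      ArithmeticFunction.cardFactors_apply_prime hpp]
    push_cast
    ring
  have hQpos : ∀ Q ⊆ P, 0 < ∏ p ∈ Q, p :=
    fun Q hQ => prod_pos fun q hq => (hP q (hQ hq)).1.pos
  obtain ⟨M, hM⟩ : ∃ M : ℕ, M = ∏ p ∈ P, p := ⟨_, rfl⟩
  have hQle : ∀ Q ⊆ P, ∏ p ∈ Q, p ≤ M := by
    intro Q hQ
    rw [hM]
    exact prod_le_prod_of_subset_of_one_le' hQ fun i hi _ => (hP i hi).1.one_lt.le
  refine ⟨Λ * M, Λ * (M + 1), fun V => ?_⟩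
  obtain ⟨Q, hQ, B, hB, hs⟩ := exists_box (k := m + 1) (m := m) (α := fun _ => Λ)
    (β := fun i => Λ - (K - 1) * r i) (g := g)
    (L := fun n => ((cardFactors n : ℕ) : ZMod m)) (t := V) hβ hg0 hG δ hδ hPα hbig hL
  obtain ⟨A, hA⟩ : ∃ A : ℕ, A = ∏ p ∈ Q, p := ⟨_, rfl⟩
  rw [← hA] at hB hs
  have hA0 : 0 < A := by rw [hA]; exact hQpos Q hQ
  have hAM : A ≤ M := by rw [hA]; exact hQle Q hQ
  have hs2 := hgap (fun i => ((cardFactors (Λ * (A * V + B) + (Λ - (K - 1) * r i)) : ℕ) : ZMod m))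
    hs
  -- two members of the clique
  obtain ⟨T, hT⟩ : ∃ T : Finset ℕ, T = (range (m + 1)).filter (fun i =>
    ((cardFactors (Λ * (A * V + B) + (Λ - (K - 1) * r i)) : ℕ) : ZMod m) = c) := ⟨_, rfl⟩
  have hTcard : 1 < T.card := by
    rw [hg] at hs2
    simp only [sum_sub_distrib, sum_const, card_range, nsmul_eq_mul, ← sum_filter] at hs2
    rw [← hT, mul_one, mul_one_div, sub_nonpos, div_le_iff₀ hm0] at hs2
    by_contra hcon
    have h1 : (T.card : ℝ) ≤ 1 := by exact_mod_cast (by omega : T.card ≤ 1)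
    push_cast at hs2
    nlinarith
  obtain ⟨a', ha', b', hb', hab'⟩ := Finset.one_lt_card.1 hTcard
  obtain ⟨a, b, ha, hb, hab⟩ : ∃ a b : ℕ, a ∈ T ∧ b ∈ T ∧ a < b := by
    rcases lt_or_gt_of_ne hab' with h | h
    · exact ⟨a', b', ha', hb', h⟩
    · exact ⟨b', a', hb', ha', h⟩
  rw [hT, mem_filter, mem_range] at ha hb
  obtain ⟨ham, ha⟩ := ha
  obtain ⟨hbm, hb⟩ := hb
  obtain ⟨κ, hκ, hrab, ⟨s, hs'⟩, ⟨l, hl⟩, hΩ⟩ := hcl a b hab (by omega)
  have hKκ : 0 < K * κ := Nat.mul_pos hK hκ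
  have hsl : (K - 1) * s < l := by
    have h1 := (hr b (by omega)).2
    rw [hs', hl] at h1
    have h2 : (K - 1) * (K * κ * s) = K * κ * ((K - 1) * s) := by ring
    rw [h2] at h1
    exact Nat.lt_of_mul_lt_mul_left h1
  have hl0 : 0 < l := by omega
  -- the number `n - 1 = x1`
  obtain ⟨x1, hx1⟩ : ∃ x1 : ℕ, x1 + ((K - 1) * s + 1) = l * (A * V + B + 1) := by
    refine ⟨l * (A * V + B + 1) - ((K - 1) * s + 1), ?_⟩
    have h1 : l * 1 ≤ l * (A * V + B + 1) := Nat.mul_le_mul_left _ (by omega)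
    omega
  have hlΛ : l ≤ Λ := by
    rw [hl]
    exact Nat.le_mul_of_pos_left _ hKκ
  obtain ⟨K', hK'⟩ : ∃ K', K = K' + 1 := ⟨K - 1, by omega⟩
  have hK'1 : K - 1 = K' := by omega
  -- the two values
  have eb : Λ * (A * V + B) + (Λ - (K - 1) * r b) = K * κ * (x1 + 1) := by
    have h1 := (hr b (by omega)).2
    have h2 : Λ * (A * V + B) + Λ = K * κ * (x1 + 1) + (K - 1) * r b := by
      calc Λ * (A * V + B) + Λ = K * κ * (l * (A * V + B + 1)) := by rw [hl]; ring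
        _ = K * κ * (x1 + ((K - 1) * s + 1)) := by rw [hx1]
        _ = K * κ * (x1 + 1) + (K - 1) * (K * κ * s) := by ring
        _ = _ := by rw [hs']
    omega
  have ea : Λ * (A * V + B) + (Λ - (K - 1) * r a) = κ * (K * x1 + 1) := by
    have h1 := (hr a (by omega)).2
    have h3 := (hr b (by omega)).2
    have h2 : (K - 1) * r a = (K - 1) * r b + (K - 1) * κ := by rw [hrab]; ring
    have h4 : K * κ * (x1 + 1) = κ * (K * x1 + 1) + (K - 1) * κ := by
      rw [hK'1, hK']; ring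
    omega
  rw [eb, cardFactors_mul' hKκ (by omega), cardFactors_mul' hK hκ] at hb
  rw [ea, cardFactors_mul' hκ (by omega)] at ha
  push_cast at ha hb
  rw [hΩ] at ha hb
  have hn : ∃ w x : ℕ, 0 < w ∧ w ≤ Λ * M ∧ x ≤ Λ * (M + 1) ∧ x1 = w * V + x := by
    have h1 : l * 1 ≤ l * (B + 1) := Nat.mul_le_mul_left _ (by omega)
    refine ⟨l * A, l * (B + 1) - ((K - 1) * s + 1), Nat.mul_pos hl0 hA0,
      Nat.mul_le_mul hlΛ hAM, ?_, ?_⟩
    · have h2 : l * (B + 1) ≤ Λ * (M + 1) := Nat.mul_le_mul hlΛ (by omega)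
      omega
    · have h3 : l * (A * V + B + 1) = l * A * V + l * (B + 1) := by ring
      omega
  obtain ⟨w, x, hw0, hwW, hxX, hx⟩ := hn
  refine ⟨w, x, hw0, hwW, hxX, ?_, ?_⟩
  · rw [← hx]
    have h1 : ((cardFactors (x1 + 1) : ℕ) : ZMod m) =
        (((cardFactors K : ℕ) : ZMod m) + t0 + ((cardFactors (x1 + 1) : ℕ) : ZMod m)) -
          ((cardFactors K : ℕ) : ZMod m) - t0 := by ring
    rw [h1, hb, hc]
    ring
  · rw [← hx]
    have h1 : ((cardFactors (K * x1 + 1) : ℕ) : ZMod m) =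
        (t0 + ((cardFactors (K * x1 + 1) : ℕ) : ZMod m)) - t0 := by ring
    rw [h1, ha, hc]
    ring

/-- the form in which it is used -/
theorem exists_good (m j r : ℕ) (hm : 0 < m) : ∃ W X : ℕ, ∀ V : ℕ, ∃ w x : ℕ,
    0 < w ∧ w ≤ W ∧ x ≤ X ∧ cardFactors (w * V + x + 1) ≡ r [MOD m] ∧
      cardFactors (2 ^ j * (w * V + x) + 1) ≡ r + j [MOD m] := by
  have : NeZero m := ⟨hm.ne'⟩
  obtain ⟨W, X, h⟩ := two_res (2 ^ j) m (by positivity) (r : ZMod m)
  refine ⟨W, X, fun V => ?_⟩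
  obtain ⟨w, x, h1, h2, h3, h4, h5⟩ := h V
  refine ⟨w, x, h1, h2, h3, (ZMod.natCast_eq_natCast_iff _ _ _).1 h4,
    (ZMod.natCast_eq_natCast_iff _ _ _).1 ?_⟩
  rw [h5, ArithmeticFunction.cardFactors_pow,
    ArithmeticFunction.cardFactors_apply_prime Nat.prime_two]
  push_cast
  ring

end Pool.Agent.Lib.MP_39b545_nt.TwoRes19
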